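import Pool.Agent.H39.EAG.Targets

/-!
MAIN: almost all graphs satisfy the Erdos-Lovasz Tihany conjecture (row MAIN of the board
eag_modules, MP_a10695_co).
-/

set_option autoImplicit false

open Finset Filter Topology Pool.Agent.H39.EAG

namespace Pool.Agent.H89.EAG

theorem main_cnt_true {Ω : Type} [Fintype Ω] :
    cnt (fun _ : Ω => True) = (Fintype.card Ω : ℝ) := by
  classical
  unfold cnt
  have h : ∀ d : DecidablePred (fun _ : Ω => True), (@Finset.filter Ω (fun _ => True) d univ) =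
      univ := fun d => by ext; simp
  rw [h, card_univ]

theorem main_cnt_not {Ω : Type} [Fintype Ω] (P : Ω → Prop) :
    cnt P + cnt (fun ω => ¬ P ω) = (Fintype.card Ω : ℝ) := by
  classical
  unfold cnt
  rw [← card_univ (α := Ω), ← Finset.card_filter_add_card_filter_not (s := (univ : Finset Ω)) P]
  push_cast
  congr

theorem main_cnt_nonneg {Ω : Type} [Fintype Ω] (P : Ω → Prop) : 0 ≤ cnt P := by
  unfold cnt
  positivity

theorem main_card (n : ℕ) : (Fintype.card (Om n) : ℝ) = 2 ^ Fintype.card (Sym2 (Fin n)) := by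
  rw [Fintype.card_fun, Fintype.card_bool]
  push_cast
  rfl

theorem main_pow (m : ℕ) (hm : 6 ≤ m) : 6 * m + 5 ≤ 2 ^ m := by
  induction m, hm using Nat.le_induction with
  | base => norm_num
  | succ k hk ih =>
    rw [pow_succ]
    omega

theorem main_clog (n : ℕ) (hn : 36 ≤ n) : 1 ≤ n / (2 * Nat.clog 2 n) / 3 := by
  have h1 : 6 ≤ n / 6 := by omega
  have h2 := main_pow (n / 6) h1
  have h3 : n ≤ 2 ^ (n / 6) := by omega
  have h4 : Nat.clog 2 n ≤ n / 6 := Nat.clog_le_of_le_pow h3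
  have h5 : 0 < Nat.clog 2 n := Nat.clog_pos (by norm_num) (by omega)
  rw [Nat.div_div_eq_div_mul]
  exact Nat.div_pos (by omega) (by omega)

theorem pf_MAIN (hF : T_FAI) (hB : T_BRG) (h1 : T_NM1) (h2 : T_NM2) (h3 : T_NM3) : T_MAIN := by
  have key : ∀ n : ℕ, (Nat.card {G : SimpleGraph (Fin n) // ELT G} : ℝ) /
      (Nat.card (SimpleGraph (Fin n)) : ℝ) =
      1 - cnt (fun ω : Om n => ¬ ELT (gr ω)) / 2 ^ Fintype.card (Sym2 (Fin n)) := by
    intro n
    have hE := hB n (fun G => ELT G)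
    have hT := hB n (fun _ => True)
    rw [main_cnt_true, main_card] at hT
    have hc : Nat.card {G : SimpleGraph (Fin n) // True} = Nat.card (SimpleGraph (Fin n)) :=
      Nat.card_congr (Equiv.subtypeUnivEquiv fun _ => trivial)
    rw [hc] at hT
    have hN := main_cnt_not (fun ω : Om n => ELT (gr ω))
    rw [main_card] at hN
    have hp : (0 : ℝ) < 2 ^ Fintype.card (Sym2 (Fin n)) := by positivity
    have hp2 : (0 : ℝ) < 2 ^ n := by positivity
    have hcp : (0 : ℝ) < (Nat.card (SimpleGraph (Fin n)) : ℝ) := by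
      rcases (Nat.cast_nonneg (α := ℝ) (Nat.card (SimpleGraph (Fin n)))).lt_or_eq with h | h
      · exact h
      · rw [← h, mul_zero] at hT
        exact absurd hT hp.ne'
    rw [div_eq_iff hcp.ne', sub_mul, one_mul, div_mul_eq_mul_div, eq_sub_iff_add_eq,
      ← eq_sub_iff_add_eq', div_eq_iff hp.ne']
    have e1 : (2 : ℝ) ^ n * ((Nat.card (SimpleGraph (Fin n)) : ℝ) -
        (Nat.card {G : SimpleGraph (Fin n) // ELT G} : ℝ)) =
        cnt (fun ω : Om n => ¬ ELT (gr ω)) := by
      rw [mul_sub, ← hE, ← hT]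
      linarith
    rw [← e1, hT]
    ring
  unfold T_MAIN
  rw [Metric.tendsto_atTop]
  intro ε hε
  obtain ⟨r, L, hr, hrL⟩ := h3 (ε / 2) (by positivity)
  have h12 := (h1.add h2)
  rw [add_zero, Metric.tendsto_atTop] at h12
  obtain ⟨n1, hn1⟩ := h12 (ε / 2) (by positivity)
  refine ⟨max n1 (max 36 (r * L)), fun n hn => ?_⟩
  have ha : n1 ≤ n := le_trans (le_max_left _ _) hn
  have hb : 36 ≤ n := le_trans (le_trans (le_max_left _ _) (le_max_right _ _)) hn
  have hc : r * L ≤ n := le_trans (le_trans (le_max_right _ _) (le_max_right _ _)) hn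
  have hd := hF n r L hr hc (main_clog n hb)
  have he := hn1 n ha
  have hp : (0 : ℝ) < 2 ^ Fintype.card (Sym2 (Fin n)) := by positivity
  rw [Real.dist_eq, sub_zero] at he
  have hf := (abs_lt.1 he).2
  rw [key n, Real.dist_eq]
  have hg : 1 - cnt (fun ω : Om n => ¬ ELT (gr ω)) / 2 ^ Fintype.card (Sym2 (Fin n)) - 1 =
      -(cnt (fun ω : Om n => ¬ ELT (gr ω)) / 2 ^ Fintype.card (Sym2 (Fin n))) := by ring
  rw [hg, abs_neg, abs_of_nonneg (div_nonneg (main_cnt_nonneg _) hp.le), div_lt_iff₀ hp]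
  refine lt_of_le_of_lt hd ?_
  apply mul_lt_mul_of_pos_right _ hp
  linarith

end Pool.Agent.H89.EAG
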