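import Pool.Agent.H39.EAG.Targets

/-!
NBH: some vertex has a neighbourhood with a large chromatic number (row NBH of the board
eag_modules, MP_a10695_co).
-/

set_option autoImplicit false

open Finset Filter Topology Pool.Agent.H39.EAG

namespace Pool.Agent.H89.EAG

theorem nbh_union {Ω ι : Type} [Fintype Ω] [Fintype ι] (P Q : Ω → Prop) (R : ι → Ω → Prop)
    (h : ∀ ω, P ω → Q ω ∨ ∃ j, R j ω) : cnt P ≤ cnt Q + ∑ j, cnt (R j) := by
  classical
  unfold cnt
  have h1 : univ.filter P ⊆ univ.filter Q ∪ univ.biUnion (fun j => univ.filter (R j)) := by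
    intro ω hω
    rw [mem_filter] at hω
    rcases h ω hω.2 with hq | ⟨j, hj⟩
    · exact mem_union_left _ (mem_filter.2 ⟨mem_univ _, hq⟩)
    · exact mem_union_right _ (mem_biUnion.2 ⟨j, mem_univ _, mem_filter.2 ⟨mem_univ _, hj⟩⟩)
  have h2 : (univ.filter P).card ≤ (univ.filter Q).card + ∑ j, (univ.filter (R j)).card :=
    (card_le_card h1).trans ((card_union_le _ _).trans
      (Nat.add_le_add_left card_biUnion_le _))
  exact_mod_cast h2

theorem nbh_blocks (n r L : ℕ) (hr : 1 ≤ r) (h : r * L ≤ n) :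
    ∃ X : Fin L → Finset (Fin n), (∀ j, (X j).card = r) ∧
      ∀ i j, i ≠ j → Disjoint (X i) (X j) := by
  have hlt : ∀ (j : Fin L) (t : Fin r), r * j.val + t.val < n := by
    intro j t
    have h1 : r * (j.val + 1) ≤ r * L := Nat.mul_le_mul_left _ j.isLt
    have h2 := t.isLt
    rw [Nat.mul_add, Nat.mul_one] at h1
    omega
  refine ⟨fun j => (univ : Finset (Fin r)).map ⟨fun t => ⟨r * j.val + t.val, hlt j t⟩, ?_⟩,
    ?_, ?_⟩
  · intro t t' htt
    have h1 := congrArg Fin.val htt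
    simp only at h1
    exact Fin.ext (by omega)
  · intro j
    rw [card_map, card_univ, Fintype.card_fin]
  · intro i j hij
    rw [Finset.disjoint_left]
    intro v hv hv'
    rw [Finset.mem_map] at hv hv'
    obtain ⟨t, -, rfl⟩ := hv
    obtain ⟨t', -, ht'⟩ := hv'
    have h1 := congrArg Fin.val ht'
    simp only [Function.Embedding.coeFn_mk] at h1
    apply hij
    apply Fin.ext
    have e1 : (r * i.val + t.val) / r = i.val := by
      rw [Nat.mul_add_div (by omega), Nat.div_eq_of_lt t.isLt, add_zero]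
    have e2 : (r * j.val + t'.val) / r = j.val := by
      rw [Nat.mul_add_div (by omega), Nat.div_eq_of_lt t'.isLt, add_zero]
    rw [← e1, ← e2, h1]

theorem pf_NBH (hI : T_IBL) (hK : T_BLK) (hD : T_DTX) : T_NBH := by
  intro n r L hr hL
  obtain ⟨X, hX, hXd⟩ := nbh_blocks n r L hr hL
  have h1 := nbh_union
    (fun ω : Om n => ∀ x, 2 * chi (gr ω) (nbr (gr ω) x) + 1 < chi (gr ω) univ)
    (fun ω : Om n => ∀ j, ¬ Ind (gr ω) (X j))
    (fun (j : Fin L) (ω : Om n) => Ind (gr ω) (X j) ∧ ∀ i ∈ X j, Fl (gr ω) (X j) i) (by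
      intro ω hω
      by_cases hq : ∀ j, ¬ Ind (gr ω) (X j)
      · exact Or.inl hq
      · push Not at hq
        obtain ⟨j, hj⟩ := hq
        refine Or.inr ⟨j, hj, fun i hi => ?_⟩
        by_contra hf
        have h2 := hD n (gr ω) (X j) i hi hj hf
        have h3 := hω i
        omega)
  have h2 := hI n r L X hX hXd
  have h3 : ∑ j : Fin L, cnt (fun ω : Om n => Ind (gr ω) (X j) ∧ ∀ i ∈ X j, Fl (gr ω) (X j) i) ≤
      ∑ _j : Fin L, (1 / 2 : ℝ) ^ (r.choose 2) * (1 / 2 : ℝ) ^ r *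
        2 ^ Fintype.card (Sym2 (Fin n)) := sum_le_sum fun j _ => hK n r (X j) (hX j)
  rw [sum_const, card_univ, Fintype.card_fin, nsmul_eq_mul] at h3
  calc _ ≤ _ := h1
    _ ≤ _ := add_le_add h2 h3
    _ = _ := by ring

end Pool.Agent.H89.EAG
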